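import Pool.Agent.VMX.StmtsA

/-! VMX squad (MP_e54c4c_gt), row LFT: lifting of reachable points along zooms. -/

set_option autoImplicit false

open Matrix Filter Topology

namespace Pool.Agent.VMX.H68

open Pool.Agent.PFS Pool.Agent.PFJ Pool.Agent.NBT

variable {n K : ℕ}

/-- the moves are invariant under positive scaling -/
theorem tm_smul {C : Set (V n)} {Γ Γ₀ : Subgroup (GL (Fin n) ℝ)} {F : (Fin K → V n) → Prop}
    (hC : CC C Γ) (hF : FAM C Γ Γ₀ F) {p m : Fin K} {z : Fin K → V n} {h : V n}
    (hh : Tm C F p m z h) {a : ℝ} (ha : 0 < a) : Tm C F p m z (a • h) := by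
  obtain ⟨h1, M, hM, h2⟩ := hh
  constructor
  · have h3 := hF.scl _ h1 (Function.update (fun _ => (1 : ℝ)) p a) (by
      intro i
      by_cases hi : i = p
      · subst hi
        simpa using ha
      · simp [Function.update_of_ne hi])
    have h4 : (fun i => (Function.update (fun _ => (1 : ℝ)) p a) i • (Function.update z p h) i)
        = Function.update z p (a • h) := by
      funext i
      by_cases hi : i = p
      · subst hi
        simp
      · simp [Function.update_of_ne hi]
    rw [h4] at h3
    exact h3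
  · refine ⟨a * M, mul_pos ha hM, ?_⟩
    have h5 : (a * M) • (z p + z m) - a • h = a • (M • (z p + z m) - h) := by
      rw [smul_sub, smul_smul]
    rw [h5]
    exact hC.cl_smul h2 ha.le

theorem lft (ces : CesStmt) (aln : AlnStmt) : LftStmt := by
  intro n C Γ Γ₀ K p J c F hS z Z r g s hz hZ hr hg hs hlim X hX
  have hC : CC C Γ := hS.cc
  have hFam : FAM C Γ Γ₀ F := hS.toFAM
  induction hX with
  | base a ha =>
    refine ⟨fun k => a • z k p, fun k => Rc.base a ha, ?_⟩
    have h1 := (hlim p).const_smul a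
    refine h1.congr fun k => ?_
    rw [smul_comm (r k p) a (z k p), CC.act_smul (g k) a, smul_comm (s k) a]
  | step X X' m hm hX h ih =>
    obtain ⟨x, hx, hxl⟩ := ih
    have hF1 : ∀ k, F (Function.update (z k) p (x k)) := fun k =>
      ((aln n C Γ Γ₀ K p J c F hS (z k) (hz k) (x k)).1 (hx k)).1
    have hF2 : F (Function.update Z p X) :=
      ((aln n C Γ Γ₀ K p J c F hS Z hZ X).1 hX).1
    have hF3 : ∀ k, F (fun i => r k i • (Function.update (z k) p (x k)) i) := fun k =>
      hFam.scl _ (hF1 k) (r k) (hr k)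
    have hF4 : ∀ k, F (fun i => s k • act (g k) (r k i • (Function.update (z k) p (x k)) i)) :=
      fun k => hFam.scl _ (hFam.inv _ (hF3 k) (g k) (hg k)) (fun _ => s k) (fun _ => hs k)
    have hl : ∀ i, Tendsto (fun k => s k • act (g k) (r k i • (Function.update (z k) p (x k)) i))
        atTop (𝓝 ((Function.update Z p X) i)) := by
      intro i
      by_cases hi : i = p
      · subst hi
        simpa using hxl
      · simpa [Function.update_of_ne hi] using hlim i
    obtain ⟨-, -, -, -, h5⟩ := ces n C Γ Γ₀ K p J c F hS (Function.update Z p X) hF2 m hm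
    obtain ⟨e, he, hel⟩ := (h5 (fun k => fun i => s k • act (g k)
      (r k i • (Function.update (z k) p (x k)) i)) hF4 hl).2 X' h
    have hid : ∀ k, s k • act (g k) (r k p • ((r k p * s k)⁻¹ • act (g k)⁻¹ (e k))) = e k := by
      intro k
      rw [smul_smul, CC.act_smul, ← CC.act_mul, mul_inv_cancel, CC.act_one, smul_smul]
      have h1 : s k * (r k p * (r k p * s k)⁻¹) = 1 := by
        have h2 := (hs k).ne'
        have h3 := (hr k p).ne'
        field_simp
      rw [h1, one_smul]
    refine ⟨fun k => (r k p * s k)⁻¹ • act (g k)⁻¹ (e k), fun k => ?_, ?_⟩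
    · refine Rc.step (x k) _ m hm (hx k) ?_
      obtain ⟨-, -, -, h4, -⟩ := ces n C Γ Γ₀ K p J c F hS _ (hF3 k) m hm
      have h6 := ((h4 (g k) (hg k) (s k) (hs k)).2
        (r k p • ((r k p * s k)⁻¹ • act (g k)⁻¹ (e k)))).1 (by rw [hid k]; exact he k)
      obtain ⟨-, -, h3, -, -⟩ := ces n C Γ Γ₀ K p J c F hS _ (hF1 k) m hm
      have h7 := ((h3 (r k) (hr k)).2 _).1 h6
      have h8 := tm_smul hC hFam h7 (inv_pos.2 (hr k p))
      rw [smul_smul, inv_mul_cancel₀ (hr k p).ne', one_smul] at h8
      exact h8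
    · refine hel.congr fun k => ?_
      exact (hid k).symm

end Pool.Agent.VMX.H68
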